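import Pool.Graph.R_seed8.H882R3.TNConn

/-!
# The Cecotti–Vafa space `T(n, ℝ)` is the closure of a path-connected set of semisimple elements
-/

set_option autoImplicit false

namespace Pool.Agent.Results.MP_5198f5_ag.DensePathConnected

open Matrix
open Pool.Agent.H882R3.TN (Ell UT US LP)

/-- `T(n, ℝ)`: the real upper triangular matrices `S` with unit diagonal for which all complex
eigenvalues of `S⁻¹ Sᵀ` have modulus one. -/
def TSpace (n : ℕ) : Set (Matrix (Fin n) (Fin n) ℝ) :=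
  {S | (∀ i j : Fin n, j < i → S i j = 0) ∧ (∀ i : Fin n, S i i = 1) ∧
    ∀ z : ℂ, ((S⁻¹ * S.transpose).map Complex.ofReal).charpoly.IsRoot z → ‖z‖ = 1}

/-- The upper triangular matrices with unit diagonal that are congruent to an orthogonal matrix:
`S = gᵀ O g` with `g` invertible and `O` orthogonal. -/
def Elliptic (n : ℕ) : Set (Matrix (Fin n) (Fin n) ℝ) :=
  {S | (∀ i j : Fin n, j < i → S i j = 0) ∧ (∀ i : Fin n, S i i = 1) ∧
    ∃ g O : Matrix (Fin n) (Fin n) ℝ, IsUnit g.det ∧ Oᵀ * O = 1 ∧ S = gᵀ * O * g}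

/-- The lower triangular matrices with positive diagonal (an open convex cone in the space of lower
triangular matrices). -/
def LowerPositive (n : ℕ) : Set (Matrix (Fin n) (Fin n) ℝ) :=
  {h | (∀ i j : Fin n, i < j → h i j = 0) ∧ ∀ i : Fin n, 0 < h i i}

lemma elliptic_eq (n : ℕ) : Elliptic n = Ell (Fin n) ∩ UT n := by
  ext S
  constructor
  · rintro ⟨h1, h2, g, O, hg, hO, rfl⟩
    exact ⟨Pool.Agent.H882R3.TN.ell_congr (Pool.Agent.H882R3.TN.ell_of_orth hO) g g⁻¹
      (Matrix.mul_nonsing_inv _ hg) (Matrix.nonsing_inv_mul _ hg), h1, h2⟩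
  · rintro ⟨hE, hU⟩
    obtain ⟨g, g', O, h1, h2, hO, hSg⟩ := Pool.Agent.H882R3.TN.ell_orth hE
    exact ⟨hU.1, hU.2, g, O, Pool.Agent.H882R3.TN.isUnit_det_of_exists_inv h1, hO, hSg⟩

lemma TSpace_iff (n : ℕ) (S : Matrix (Fin n) (Fin n) ℝ) : S ∈ TSpace n ↔ S ∈ UT n ∧ US S := by
  open Pool.Agent.H882R3.TN in
  have hdet : ∀ S : Matrix (Fin n) (Fin n) ℝ, S ∈ UT n → IsUnit S.det := fun S hS => by
    rw [ut_det hS]; exact isUnit_one
  open Pool.Agent.H882R3.TN in
  have key : ∀ S : Matrix (Fin n) (Fin n) ℝ, S ∈ UT n →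
      ((∀ z : ℂ, ((S⁻¹ * S.transpose).map Complex.ofReal).charpoly.IsRoot z → ‖z‖ = 1) ↔ US S) := by
    intro S hS
    have hu := hdet S hS
    have c1 : S.map Complex.ofReal * (S⁻¹).map Complex.ofReal = 1 := by
      rw [← cmap_mul, Matrix.mul_nonsing_inv _ hu, cmap_one]
    have c2 : (S⁻¹).map Complex.ofReal * S.map Complex.ofReal = 1 := by
      rw [← cmap_mul, Matrix.nonsing_inv_mul _ hu, cmap_one]
    have hroot : ∀ z : ℂ, ((S⁻¹ * S.transpose).map Complex.ofReal).charpoly.IsRoot z ↔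
        ∃ v : Fin n → ℂ, v ≠ 0 ∧
          (S.map Complex.ofReal)ᵀ *ᵥ v = z • ((S.map Complex.ofReal) *ᵥ v) := by
      intro z
      rw [Polynomial.IsRoot, Matrix.eval_charpoly, ← Matrix.exists_mulVec_eq_zero_iff]
      constructor
      · rintro ⟨v, hv, h⟩
        refine ⟨v, hv, ?_⟩
        rw [Matrix.sub_mulVec, sub_eq_zero, cmap_mul] at h
        have h1 : (Matrix.scalar (Fin n)) z *ᵥ v = z • v := by
          ext i; simp [Matrix.scalar_apply, Matrix.mulVec_diagonal]
        rw [h1] at h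
        have h2 := congrArg (S.map Complex.ofReal *ᵥ ·) h
        simp only [Matrix.mulVec_mulVec, Matrix.mulVec_smul] at h2
        rw [← Matrix.mul_assoc, c1, Matrix.one_mul] at h2
        exact h2.symm
      · rintro ⟨v, hv, h⟩
        refine ⟨v, hv, ?_⟩
        rw [Matrix.sub_mulVec, sub_eq_zero, cmap_mul]
        have h1 : (Matrix.scalar (Fin n)) z *ᵥ v = z • v := by
          ext i; simp [Matrix.scalar_apply, Matrix.mulVec_diagonal]
        rw [h1, ← Matrix.mulVec_mulVec, cmap_transpose, h, Matrix.mulVec_smul,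
          Matrix.mulVec_mulVec, c2, Matrix.one_mulVec]
    constructor
    · intro h z v hv hz
      exact h z ((hroot z).mpr ⟨v, hv, hz⟩)
    · intro h z hz
      obtain ⟨v, hv, hv2⟩ := (hroot z).mp hz
      exact h z v hv hv2
  constructor
  · rintro ⟨h1, h2, h3⟩
    exact ⟨⟨h1, h2⟩, (key S ⟨h1, h2⟩).1 h3⟩
  · rintro ⟨h1, h2⟩
    exact ⟨h1.1, h1.2, (key S h1).2 h2⟩

/-- similarity of the asymmetry of an elliptic form to an orthogonal matrix -/
lemma similar {n : ℕ} {g O : Matrix (Fin n) (Fin n) ℝ} (hg : IsUnit g.det) (hO : Oᵀ * O = 1) :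
    (gᵀ * O * g)⁻¹ * (gᵀ * O * g)ᵀ = g⁻¹ * (Oᵀ * Oᵀ) * g := by
  have hgT : IsUnit (gᵀ).det := by rwa [Matrix.det_transpose]
  have hOi : O⁻¹ = Oᵀ := Matrix.inv_eq_left_inv hO
  rw [Matrix.mul_inv_rev, Matrix.mul_inv_rev, hOi]
  simp only [Matrix.transpose_mul, Matrix.transpose_transpose, Matrix.mul_assoc]
  rw [Matrix.nonsing_inv_mul_cancel_left _ _ hgT]

section
open scoped MatrixOrder

/-- A form whose asymmetry is orthogonal is normal, hence congruent to an orthogonal matrix. -/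
lemma normal_ell {n : ℕ} {M R : Matrix (Fin n) (Fin n) ℝ} (hM : IsUnit M.det)
    (hR : Rᵀ * R = 1) (h : Mᵀ = M * R) : M ∈ Ell (Fin n) := by
  have hR' : R * Rᵀ = 1 := mul_eq_one_comm.mp hR
  have h' : M = Rᵀ * Mᵀ := by
    have := congrArg Matrix.transpose h
    rwa [Matrix.transpose_transpose, Matrix.transpose_mul] at this
  have comm : R * M = M * R := by
    calc R * M = R * (Rᵀ * Mᵀ) := by rw [← h']
      _ = (R * Rᵀ) * Mᵀ := (Matrix.mul_assoc _ _ _).symm
      _ = M * R := by rw [hR', Matrix.one_mul, h]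
  have normal : Mᵀ * M = M * Mᵀ := by
    rw [h, Matrix.mul_assoc, comm]
  have hMi : M⁻¹ * M = 1 := Matrix.nonsing_inv_mul _ hM
  have hinj : Function.Injective M.mulVec := by
    intro x y hxy
    have := congrArg (M⁻¹ *ᵥ ·) hxy
    simpa [Matrix.mulVec_mulVec, hMi] using this
  have hP : (Mᵀ * M).PosDef := by
    have := Matrix.PosDef.conjTranspose_mul_self M hinj
    rwa [Matrix.conjTranspose_eq_transpose_of_trivial] at this
  set P := Mᵀ * M with hPdef
  have hPn : 0 ≤ P := hP.posSemidef.nonneg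
  set H := CFC.sqrt P with hH
  have hHH : H * H = P := CFC.sqrt_mul_sqrt_self P
  have hHs : H.PosSemidef := (CFC.sqrt_nonneg P).posSemidef
  have hHu : IsUnit H.det := by
    have h1 : IsUnit P.det := (Matrix.isUnit_iff_isUnit_det P).mp hP.isUnit
    rw [← hHH, Matrix.det_mul] at h1
    exact isUnit_of_mul_isUnit_right h1
  have hHp : H.PosDef := (hHs.posDef_iff_isUnit).2 ((Matrix.isUnit_iff_isUnit_det H).2 hHu)
  have cPM : Commute P M := by
    change P * M = M * P
    calc P * M = (M * Mᵀ) * M := by rw [← normal]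
      _ = M * (Mᵀ * M) := Matrix.mul_assoc _ _ _
      _ = M * P := rfl
  have cHM : Commute H M := Commute.cfcₙ_nnreal cPM NNReal.sqrt
  have cHM' : H⁻¹ * M = M * H⁻¹ := by
    have e : H * M = M * H := cHM
    calc H⁻¹ * M = H⁻¹ * (M * H) * H⁻¹ := by
          rw [Matrix.mul_assoc H⁻¹, Matrix.mul_assoc M, Matrix.mul_nonsing_inv _ hHu, Matrix.mul_one]
      _ = (H⁻¹ * H) * M * H⁻¹ := by rw [← e]; simp only [Matrix.mul_assoc]
      _ = M * H⁻¹ := by rw [Matrix.nonsing_inv_mul _ hHu, Matrix.one_mul]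
  have hHT : Hᵀ = H := by
    have := hHs.1
    rwa [Matrix.IsHermitian, Matrix.conjTranspose_eq_transpose_of_trivial] at this
  refine ⟨H, H⁻¹ * M, hHp, ?_, ?_⟩
  · rw [← Matrix.mul_assoc, Matrix.mul_nonsing_inv _ hHu, Matrix.one_mul]
  · rw [Matrix.transpose_mul, Matrix.transpose_nonsing_inv, hHT]
    calc Mᵀ * H⁻¹ * H * (H⁻¹ * M) = Mᵀ * (H⁻¹ * H) * (H⁻¹ * M) := by
          simp only [Matrix.mul_assoc]
      _ = Mᵀ * (H⁻¹ * M) := by rw [Matrix.nonsing_inv_mul _ hHu, Matrix.mul_one]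
      _ = P * H⁻¹ := by rw [cHM', hPdef, Matrix.mul_assoc]
      _ = H * (H * H⁻¹) := by rw [← hHH, Matrix.mul_assoc]
      _ = H := by rw [Matrix.mul_nonsing_inv _ hHu, Matrix.mul_one]

end

/-- a form whose asymmetry is similar to an orthogonal matrix is congruent to an orthogonal
matrix -/
lemma ell_of_similar {n : ℕ} {S p R : Matrix (Fin n) (Fin n) ℝ} (hS : IsUnit S.det)
    (hp : IsUnit p.det) (hR : Rᵀ * R = 1) (h : S⁻¹ * Sᵀ = p⁻¹ * R * p) : S ∈ Ell (Fin n) := by
  have hpi : p * p⁻¹ = 1 := Matrix.mul_nonsing_inv _ hp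
  have hip : p⁻¹ * p = 1 := Matrix.nonsing_inv_mul _ hp
  have hST : Sᵀ = S * (p⁻¹ * R * p) := by
    rw [← h, ← Matrix.mul_assoc, Matrix.mul_nonsing_inv _ hS, Matrix.one_mul]
  have hpd : IsUnit (p⁻¹).det := Pool.Agent.H882R3.TN.isUnit_det_of_exists_inv hip
  have hM : (p⁻¹)ᵀ * S * p⁻¹ ∈ Ell (Fin n) := by
    refine normal_ell (R := R) ?_ hR ?_
    · rw [Matrix.det_mul, Matrix.det_mul, Matrix.det_transpose]
      exact (hpd.mul hS).mul hpd
    · rw [Matrix.transpose_mul, Matrix.transpose_mul, Matrix.transpose_transpose, hST]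
      calc (p⁻¹)ᵀ * (S * (p⁻¹ * R * p) * p⁻¹) = (p⁻¹)ᵀ * S * p⁻¹ * R * (p * p⁻¹) := by
            simp only [Matrix.mul_assoc]
        _ = _ := by rw [hpi, Matrix.mul_one]
  have := Pool.Agent.H882R3.TN.ell_congr hM p p⁻¹ hpi hip
  have e : pᵀ * ((p⁻¹)ᵀ * S * p⁻¹) * p = S := by
    calc pᵀ * ((p⁻¹)ᵀ * S * p⁻¹) * p = (pᵀ * (p⁻¹)ᵀ) * S * (p⁻¹ * p) := by
          simp only [Matrix.mul_assoc]
      _ = S := by
          rw [hip, Matrix.mul_one, ← Matrix.transpose_mul, hip, Matrix.transpose_one,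
            Matrix.one_mul]
  rwa [e] at this

lemma prod_lower (z : ℂ) (m : Multiset ℂ) (hroot : ∀ a ∈ m, ‖a‖ = 1) :
    |‖z‖ - 1| ^ Multiset.card m ≤ ‖(m.map fun a => z - a).prod‖ := by
  induction m using Multiset.induction_on with
  | empty => simp
  | cons a m ih =>
    rw [Multiset.map_cons, Multiset.prod_cons, Multiset.card_cons, norm_mul, pow_succ, mul_comm]
    refine mul_le_mul ?_ (ih fun b hb => hroot b (Multiset.mem_cons_of_mem hb)) (by positivity)
      (norm_nonneg _)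
    have := hroot a (Multiset.mem_cons_self a m)
    rw [← this]
    exact abs_norm_sub_norm_le z a

lemma charpoly_lower {n : ℕ} (A : Matrix (Fin n) (Fin n) ℂ)
    (h : ∀ z : ℂ, A.charpoly.IsRoot z → ‖z‖ = 1) (z : ℂ) :
    |‖z‖ - 1| ^ n ≤ ‖(Matrix.scalar (Fin n) z - A).det‖ := by
  have hs : A.charpoly.Splits := IsAlgClosed.splits _
  have hm := A.charpoly_monic
  have e1 : A.charpoly.eval z = (A.charpoly.roots.map fun a => z - a).prod :=
    Polynomial.Splits.eval_eq_prod_roots_of_monic hs hm z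
  have hc : Multiset.card A.charpoly.roots = n := by
    have := Polynomial.splits_iff_card_roots.1 hs
    rw [this, Matrix.charpoly_natDegree_eq_dim, Fintype.card_fin]
  have h1 := prod_lower z A.charpoly.roots fun a ha =>
    h a ((Polynomial.mem_roots hm.ne_zero).1 ha)
  rwa [hc, ← e1, Matrix.eval_charpoly] at h1

lemma TSpace_closed (n : ℕ) : closure (TSpace n) ⊆ TSpace n := by
  intro S hS
  have hc : ∀ i j : Fin n, Continuous fun S : Matrix (Fin n) (Fin n) ℝ => S i j := fun i j =>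
    Continuous.matrix_elem continuous_id i j
  have h1 : ∀ i j : Fin n, j < i → S i j = 0 := fun i j hij =>
    (isClosed_eq (hc i j) continuous_const).closure_subset_iff.2
      (fun S hS => hS.1 i j hij) hS
  have h2 : ∀ i : Fin n, S i i = 1 := fun i =>
    (isClosed_eq (hc i i) continuous_const).closure_subset_iff.2 (fun S hS => hS.2.1 i) hS
  have hinv : ∀ S : Matrix (Fin n) (Fin n) ℝ, S ∈ UT n → S⁻¹ = S.adjugate := fun S hS => by
    rw [Matrix.inv_def, Pool.Agent.H882R3.TN.ut_det hS, Ring.inverse_one, one_smul]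
  refine ⟨h1, h2, fun z hz => ?_⟩
  have hG : Continuous fun S : Matrix (Fin n) (Fin n) ℝ =>
      ‖(Matrix.scalar (Fin n) z - (S.adjugate * Sᵀ).map Complex.ofReal).det‖ := by
    refine (Continuous.matrix_det (continuous_const.sub (Continuous.matrix_map
      (Continuous.matrix_mul (Continuous.matrix_adjugate continuous_id)
        (Continuous.matrix_transpose continuous_id)) Complex.continuous_ofReal))).norm
  have h3 : |‖z‖ - 1| ^ n ≤
      ‖(Matrix.scalar (Fin n) z - (S.adjugate * Sᵀ).map Complex.ofReal).det‖ := by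
    refine (isClosed_le continuous_const hG).closure_subset_iff.2 (fun S hS => ?_) hS
    have := charpoly_lower _ hS.2.2 z
    rwa [hinv S ⟨hS.1, hS.2.1⟩] at this
  rw [← hinv S ⟨h1, h2⟩, ← Matrix.eval_charpoly, hz.eq_zero, norm_zero] at h3
  have h4 : |‖z‖ - 1| ^ n = 0 := le_antisymm h3 (by positivity)
  have h5 : |‖z‖ - 1| = 0 := by
    by_contra hne
    exact absurd h4 (pow_ne_zero n hne)
  have := abs_eq_zero.1 h5
  linarith

/-- **`T(n, ℝ)` is the closure of its path-connected semisimple part.**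
(1) The semisimple part of `T(n, ℝ)`, that is the set of those `S` for which `S⁻¹ Sᵀ` is similar
over `ℝ` to an orthogonal matrix, is the set `Elliptic n` of the unipotent upper triangular
matrices congruent to orthogonal matrices.
(2) It is a continuous image of the convex set of lower triangular matrices with positive diagonal;
in particular it is path connected.
(3) `T(n, ℝ)` is its closure.
(4) Every set between `Elliptic n` and `T(n, ℝ)` is connected; in particular `T(n, ℝ)` is. -/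
theorem result (n : ℕ) :
    Elliptic n = {S ∈ TSpace n | ∃ g R : Matrix (Fin n) (Fin n) ℝ, IsUnit g.det ∧ Rᵀ * R = 1 ∧
      S⁻¹ * Sᵀ = g⁻¹ * R * g} ∧
    (∃ F : Matrix (Fin n) (Fin n) ℝ → Matrix (Fin n) (Fin n) ℝ,
      ContinuousOn F (LowerPositive n) ∧ F '' LowerPositive n = Elliptic n) ∧
    IsPathConnected (Elliptic n) ∧
    TSpace n = closure (Elliptic n) ∧
    ∀ X : Set (Matrix (Fin n) (Fin n) ℝ), Elliptic n ⊆ X → X ⊆ TSpace n → IsConnected X := by
  have himg : Pool.Agent.H882R3.TN.Fm '' LowerPositive n = Elliptic n := by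
    rw [elliptic_eq]
    ext S
    constructor
    · rintro ⟨h, hh, rfl⟩
      exact Pool.Agent.H882R3.TN.Fm_mem hh
    · rintro ⟨hS, hU⟩
      obtain ⟨h, hh, he⟩ := Pool.Agent.H882R3.TN.surj hS hU
      exact ⟨h, hh, he⟩
  have hcont : ContinuousOn (Pool.Agent.H882R3.TN.Fm (n := n)) (LowerPositive n) :=
    Pool.Agent.H882R3.TN.Fm_cont
  have hpath : IsPathConnected (Elliptic n) := by
    rw [← himg]
    refine IsPathConnected.image' (Convex.isPathConnected
      (Pool.Agent.H882R3.TN.LP_convex (n := n)) ⟨1, ?_⟩) hcont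
    exact ⟨fun i j hij => Matrix.one_apply_ne hij.ne, fun i => by simp⟩
  have hsub : TSpace n ⊆ closure (Elliptic n) := by
    intro S hS
    rw [elliptic_eq]
    obtain ⟨hU, hUS⟩ := (TSpace_iff n S).1 hS
    exact Pool.Agent.H882R3.TN.ut_closure hU (Pool.Agent.H882R3.TN.density n S (by
      rw [Pool.Agent.H882R3.TN.ut_det hU]; exact isUnit_one) hUS)
  have hET : Elliptic n ⊆ TSpace n := by
    intro S hS
    rw [elliptic_eq] at hS
    exact (TSpace_iff n S).2 ⟨hS.2, Pool.Agent.H882R3.TN.us_ell hS.1⟩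
  refine ⟨?_, ⟨_, hcont, himg⟩, hpath, Set.Subset.antisymm hsub ((closure_mono hET).trans
    (TSpace_closed n)), fun X h1 h2 => hpath.isConnected.subset_closure h1 (h2.trans hsub)⟩
  apply Set.Subset.antisymm
  · intro S hS
    refine ⟨hET hS, ?_⟩
    obtain ⟨h1, h2, g, O, hg, hO, rfl⟩ := hS
    refine ⟨g, Oᵀ * Oᵀ, hg, ?_, similar hg hO⟩
    have hO' : O * Oᵀ = 1 := mul_eq_one_comm.mp hO
    simp only [Matrix.transpose_mul, Matrix.transpose_transpose]
    calc O * O * (Oᵀ * Oᵀ) = O * (O * Oᵀ) * Oᵀ := by simp only [Matrix.mul_assoc]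
      _ = 1 := by rw [hO', Matrix.mul_one, hO']
  · rintro S ⟨hS, g, R, hg, hR, h⟩
    rw [elliptic_eq]
    have hU := ((TSpace_iff n S).1 hS).1
    exact ⟨ell_of_similar (by rw [Pool.Agent.H882R3.TN.ut_det hU]; exact isUnit_one) hg hR h, hU⟩

end Pool.Agent.Results.MP_5198f5_ag.DensePathConnected
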